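import Mathlib

/-!
Calculus of surfaces in `ℝ³` needed for MP_665542_gt: partial derivatives, the Gauss equation for
a metric `a(v)² du² + r² dv²`, the second derivative test, determinants in an orthonormal frame.
-/

open MeasureTheory Set Filter Topology
open scoped ContDiff Real ENNReal

noncomputable section

set_option linter.unusedSectionVars false

namespace Pool.Agent.Helper34.Torus

abbrev E3 := EuclideanSpace ℝ (Fin 3)

variable {V : Type*} [NormedAddCommGroup V] [NormedSpace ℝ V]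

def D1 (g : ℝ × ℝ → V) (p : ℝ × ℝ) : V := fderiv ℝ g p (1, 0)

def D2 (g : ℝ × ℝ → V) (p : ℝ × ℝ) : V := fderiv ℝ g p (0, 1)

theorem contDiff_D1 {g : ℝ × ℝ → V} {m n : ℕ∞ω} (h : ContDiff ℝ n g) (hmn : m + 1 ≤ n) :
    ContDiff ℝ m (D1 g) :=
  (h.fderiv_right hmn).clm_apply contDiff_const

theorem contDiff_D2 {g : ℝ × ℝ → V} {m n : ℕ∞ω} (h : ContDiff ℝ n g) (hmn : m + 1 ≤ n) :
    ContDiff ℝ m (D2 g) :=
  (h.fderiv_right hmn).clm_apply contDiff_const

theorem fderiv_fderiv_apply {g : ℝ × ℝ → V} (h : ContDiff ℝ 2 g) (p w z : ℝ × ℝ) :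
    fderiv ℝ (fun q => fderiv ℝ g q w) p z = fderiv ℝ (fderiv ℝ g) p z w := by
  have h1 : DifferentiableAt ℝ (fderiv ℝ g) p :=
    (h.fderiv_right (m := 1) (by norm_num)).differentiable (by norm_num) p
  have := (h1.hasFDerivAt.clm_apply (hasFDerivAt_const w p)).fderiv
  rw [this]
  simp

theorem D1_D2_comm {g : ℝ × ℝ → V} (h : ContDiff ℝ 2 g) (p : ℝ × ℝ) :
    D1 (D2 g) p = D2 (D1 g) p := by
  have hs : IsSymmSndFDerivAt ℝ g p := by
    refine (h.contDiffAt (x := p)).isSymmSndFDerivAt ?_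
    simp
  unfold D1 D2
  rw [fderiv_fderiv_apply h, fderiv_fderiv_apply h]
  exact hs _ _

theorem D1_inner {g h : ℝ × ℝ → E3} {p : ℝ × ℝ} (hg : DifferentiableAt ℝ g p)
    (hh : DifferentiableAt ℝ h p) :
    D1 (fun q => (inner ℝ (g q) (h q))) p = (inner ℝ (g p) (D1 h p)) + (inner ℝ (D1 g p) (h p)) :=
  fderiv_inner_apply ℝ hg hh _

theorem D2_inner {g h : ℝ × ℝ → E3} {p : ℝ × ℝ} (hg : DifferentiableAt ℝ g p)
    (hh : DifferentiableAt ℝ h p) :
    D2 (fun q => (inner ℝ (g q) (h q))) p = (inner ℝ (g p) (D2 h p)) + (inner ℝ (D2 g p) (h p)) :=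
  fderiv_inner_apply ℝ hg hh _

theorem D1_const (c : V) (p : ℝ × ℝ) : D1 (fun _ => c) p = 0 := by
  simp [D1]

theorem D2_const (c : V) (p : ℝ × ℝ) : D2 (fun _ => c) p = 0 := by
  simp [D2]

theorem D2_snd {a : ℝ → ℝ} {a' : ℝ} {p : ℝ × ℝ} (h : HasDerivAt a a' p.2) :
    D2 (fun q : ℝ × ℝ => a q.2) p = a' := by
  have h1 : HasFDerivAt (fun q : ℝ × ℝ => a q.2) _ p :=
    h.hasFDerivAt.comp p (hasFDerivAt_snd (𝕜 := ℝ) (p := p))
  unfold D2
  rw [h1.fderiv]
  simp

theorem D1_snd {a : ℝ → ℝ} {a' : ℝ} {p : ℝ × ℝ} (h : HasDerivAt a a' p.2) :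
    D1 (fun q : ℝ × ℝ => a q.2) p = 0 := by
  have h1 : HasFDerivAt (fun q : ℝ × ℝ => a q.2) _ p :=
    h.hasFDerivAt.comp p (hasFDerivAt_snd (𝕜 := ℝ) (p := p))
  unfold D1
  rw [h1.fderiv]
  simp

/-! ### Orthonormal triples -/

theorem inner_coord (x y : E3) : (inner ℝ (x) (y)) = x 0 * y 0 + x 1 * y 1 + x 2 * y 2 := by
  simp [PiLp.inner_apply, Fin.sum_univ_three, mul_comm]

/-- `e` is an orthonormal triple -/
structure ON (e : Fin 3 → E3) : Prop where
  h : ∀ i j, (inner ℝ (e i) (e j)) = if i = j then 1 else 0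

def Q (e : Fin 3 → E3) : Matrix (Fin 3) (Fin 3) ℝ := Matrix.of fun i k => e i k

theorem ON.mul_transpose {e : Fin 3 → E3} (he : ON e) : Q e * (Q e).transpose = 1 := by
  ext i j
  have := he.h i j
  rw [inner_coord] at this
  simp only [Matrix.mul_apply, Q, Matrix.of_apply, Matrix.transpose_apply, Fin.sum_univ_three,
    Matrix.one_apply]
  exact this

theorem ON.transpose_mul {e : Fin 3 → E3} (he : ON e) : (Q e).transpose * Q e = 1 :=
  mul_eq_one_comm.mp he.mul_transpose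

theorem ON.parseval {e : Fin 3 → E3} (he : ON e) (x y : E3) :
    (inner ℝ (x) (y)) = (inner ℝ (x) (e 0)) * (inner ℝ (y) (e 0)) + (inner ℝ (x) (e 1)) * (inner ℝ (y) (e 1)) + (inner ℝ (x) (e 2)) * (inner ℝ (y) (e 2)) := by
  have h := he.transpose_mul
  have hkl : ∀ k l : Fin 3, e 0 k * e 0 l + e 1 k * e 1 l + e 2 k * e 2 l
      = if k = l then 1 else 0 := by
    intro k l
    have := congrFun (congrFun h k) l
    simpa only [Matrix.mul_apply, Q, Matrix.of_apply, Matrix.transpose_apply, Fin.sum_univ_three,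
      Matrix.one_apply] using this
  have h00 := hkl 0 0
  have h11 := hkl 1 1
  have h22 := hkl 2 2
  have h01 := hkl 0 1
  have h02 := hkl 0 2
  have h12 := hkl 1 2
  simp only [inner_coord]
  simp at h00 h11 h22 h01 h02 h12
  linear_combination -(x 0 * y 0) * h00 - (x 1 * y 1) * h11 - (x 2 * y 2) * h22
    - (x 0 * y 1 + x 1 * y 0) * h01 - (x 0 * y 2 + x 2 * y 0) * h02
    - (x 1 * y 2 + x 2 * y 1) * h12

theorem ON.det_sq {e : Fin 3 → E3} (he : ON e) : |(Q e).det| = 1 := by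
  have h := congrArg Matrix.det he.mul_transpose
  rw [Matrix.det_mul, Matrix.det_transpose, Matrix.det_one] at h
  have : |(Q e).det| * |(Q e).det| = 1 := by rw [← abs_mul, h, abs_one]
  nlinarith [abs_nonneg (Q e).det]

/-- the linear map with columns `w` -/
def T (w : Fin 3 → E3) : E3 →L[ℝ] E3 :=
  (EuclideanSpace.proj (0 : Fin 3) : E3 →L[ℝ] ℝ).smulRight (w 0)
    + (EuclideanSpace.proj (1 : Fin 3) : E3 →L[ℝ] ℝ).smulRight (w 1)
    + (EuclideanSpace.proj (2 : Fin 3) : E3 →L[ℝ] ℝ).smulRight (w 2)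

theorem T_apply (w : Fin 3 → E3) (x : E3) : T w x = x 0 • w 0 + x 1 • w 1 + x 2 • w 2 := by
  simp [T]

theorem T_det (w : Fin 3 → E3) : (T w).det = (Q w).det := by
  unfold ContinuousLinearMap.det
  rw [← LinearMap.det_toMatrix (EuclideanSpace.basisFun (Fin 3) ℝ).toBasis,
    ← Matrix.det_transpose (Q w)]
  congr 1
  ext i j
  rw [LinearMap.toMatrix_apply]
  simp only [OrthonormalBasis.coe_toBasis, EuclideanSpace.basisFun_apply,
    OrthonormalBasis.coe_toBasis_repr_apply, ContinuousLinearMap.coe_coe, T_apply, Q,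
    Matrix.transpose_apply, Matrix.of_apply]
  fin_cases j <;> fin_cases i <;> simp [EuclideanSpace.basisFun_repr]

theorem T_abs_det {e : Fin 3 → E3} (he : ON e) (w : Fin 3 → E3) :
    |(T w).det| = |(Matrix.of fun i j => (inner ℝ (e i) (w j)) : Matrix (Fin 3) (Fin 3) ℝ).det| := by
  have h : (Matrix.of fun i j => (inner ℝ (e i) (w j)) : Matrix (Fin 3) (Fin 3) ℝ)
      = Q e * (Q w).transpose := by
    ext i j
    simp only [Matrix.mul_apply, Q, Matrix.of_apply, Matrix.transpose_apply, Fin.sum_univ_three,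
      inner_coord]
  rw [h, Matrix.det_mul, Matrix.det_transpose, abs_mul, he.det_sq, one_mul, T_det]

/-! ### The unit normal -/

def cross (x y : E3) : E3 :=
  !₂[x 1 * y 2 - x 2 * y 1, x 2 * y 0 - x 0 * y 2, x 0 * y 1 - x 1 * y 0]

theorem cross_inner_left (x y : E3) : (inner ℝ (cross x y) (x)) = 0 := by
  simp [inner_coord, cross]; ring

theorem cross_inner_right (x y : E3) : (inner ℝ (cross x y) (y)) = 0 := by
  simp [inner_coord, cross]; ring

theorem cross_inner_self (x y : E3) :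
    (inner ℝ (cross x y) (cross x y)) = (inner ℝ (x) (x)) * (inner ℝ (y) (y)) - (inner ℝ (x) (y)) ^ 2 := by
  simp only [inner_coord]
  simp [cross]
  ring

theorem contDiff_cross {g h : ℝ × ℝ → E3} {n : ℕ∞ω} (hg : ContDiff ℝ n g) (hh : ContDiff ℝ n h) :
    ContDiff ℝ n (fun p => cross (g p) (h p)) := by
  rw [contDiff_euclidean] at hg hh ⊢
  intro i
  fin_cases i
  · simpa [cross] using ((hg 1).mul (hh 2)).sub ((hg 2).mul (hh 1))
  · simpa [cross] using ((hg 2).mul (hh 0)).sub ((hg 0).mul (hh 2))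
  · simpa [cross] using ((hg 0).mul (hh 1)).sub ((hg 1).mul (hh 0))

/-- A `C³` map `f` of the plane with first fundamental form `a(v)² du² + r² dv²`. -/
structure Surf (f : ℝ × ℝ → E3) (a a1 a2 : ℝ → ℝ) (r : ℝ) : Prop where
  smooth : ContDiff ℝ 3 f
  apos : ∀ v, 0 < a v
  rpos : 0 < r
  ha : ∀ v, HasDerivAt a (a1 v) v
  ha1 : ∀ v, HasDerivAt a1 (a2 v) v
  asm : ContDiff ℝ 2 a
  hE : ∀ p : ℝ × ℝ, (inner ℝ (D1 f p) (D1 f p)) = a p.2 ^ 2
  hF : ∀ p, (inner ℝ (D1 f p) (D2 f p)) = 0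
  hG : ∀ p, (inner ℝ (D2 f p) (D2 f p)) = r ^ 2

namespace Surf

variable {f : ℝ × ℝ → E3} {a a1 a2 : ℝ → ℝ} {r : ℝ} (S : Surf f a a1 a2 r)

include S

theorem d1 : ContDiff ℝ 2 (D1 f) := contDiff_D1 S.smooth (by norm_num)

theorem d2 : ContDiff ℝ 2 (D2 f) := contDiff_D2 S.smooth (by norm_num)

theorem d11 : ContDiff ℝ 1 (D1 (D1 f)) := contDiff_D1 S.d1 (by norm_num)

theorem d21 : ContDiff ℝ 1 (D2 (D1 f)) := contDiff_D2 S.d1 (by norm_num)

theorem d12 : ContDiff ℝ 1 (D1 (D2 f)) := contDiff_D1 S.d2 (by norm_num)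

theorem d22 : ContDiff ℝ 1 (D2 (D2 f)) := contDiff_D2 S.d2 (by norm_num)

theorem comm (p : ℝ × ℝ) : D1 (D2 f) p = D2 (D1 f) p :=
  D1_D2_comm (S.smooth.of_le (by norm_num)) p

theorem comm' : D1 (D2 f) = D2 (D1 f) := funext S.comm

theorem f2_f12 (p : ℝ × ℝ) : (inner ℝ (D2 f p) (D2 (D1 f) p)) = 0 := by
  have h := D1_inner (S.d2.differentiable (by norm_num) p) (S.d2.differentiable (by norm_num) p)
  have h2 : (fun q => (inner ℝ (D2 f q) (D2 f q))) = fun _ => r ^ 2 := funext S.hG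
  rw [h2, D1_const, S.comm, real_inner_comm (D2 f p) (D2 (D1 f) p)] at h
  linarith [real_inner_comm (D2 f p) (D2 (D1 f) p)]

theorem f2_f22 (p : ℝ × ℝ) : (inner ℝ (D2 f p) (D2 (D2 f) p)) = 0 := by
  have h := D2_inner (S.d2.differentiable (by norm_num) p) (S.d2.differentiable (by norm_num) p)
  have h2 : (fun q => (inner ℝ (D2 f q) (D2 f q))) = fun _ => r ^ 2 := funext S.hG
  rw [h2, D2_const] at h
  linarith [real_inner_comm (D2 f p) (D2 (D2 f) p)]

theorem f1_f22 (p : ℝ × ℝ) : (inner ℝ (D1 f p) (D2 (D2 f) p)) = 0 := by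
  have h := D2_inner (S.d1.differentiable (by norm_num) p) (S.d2.differentiable (by norm_num) p)
  have h2 : (fun q => (inner ℝ (D1 f q) (D2 f q))) = fun _ => 0 := funext S.hF
  rw [h2, D2_const] at h
  linarith [real_inner_comm (D2 f p) (D2 (D1 f) p), S.f2_f12 p]

theorem f1_f11 (p : ℝ × ℝ) : (inner ℝ (D1 f p) (D1 (D1 f) p)) = 0 := by
  have h := D1_inner (S.d1.differentiable (by norm_num) p) (S.d1.differentiable (by norm_num) p)
  have h2 : (fun q => (inner ℝ (D1 f q) (D1 f q))) = fun q => (a q.2) ^ 2 := funext S.hE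
  have h3 : HasDerivAt (fun v => a v ^ 2) (2 * a p.2 * a1 p.2) p.2 := by
    simpa using (S.ha p.2).fun_pow 2
  rw [h2, D1_snd h3] at h
  linarith [real_inner_comm (D1 f p) (D1 (D1 f) p)]

theorem f1_f12 (p : ℝ × ℝ) : (inner ℝ (D1 f p) (D2 (D1 f) p)) = a p.2 * a1 p.2 := by
  have h := D2_inner (S.d1.differentiable (by norm_num) p) (S.d1.differentiable (by norm_num) p)
  have h2 : (fun q => (inner ℝ (D1 f q) (D1 f q))) = fun q => (a q.2) ^ 2 := funext S.hE
  have h3 : HasDerivAt (fun v => a v ^ 2) (2 * a p.2 * a1 p.2) p.2 := by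
    simpa using (S.ha p.2).fun_pow 2
  rw [h2, D2_snd h3] at h
  linarith [real_inner_comm (D1 f p) (D2 (D1 f) p)]

theorem gauss (p : ℝ × ℝ) :
    (inner ℝ (D1 (D1 f) p) (D2 (D2 f) p)) - (inner ℝ (D2 (D1 f) p) (D2 (D1 f) p))
      = -(a1 p.2 ^ 2 + a p.2 * a2 p.2) := by
  -- derivative of `(inner ℝ (f_u) (f_vv)) = 0` in `u`
  have h1 := D1_inner (S.d1.differentiable (by norm_num) p) (S.d22.differentiable (by norm_num) p)
  have h2 : (fun q => (inner ℝ (D1 f q) (D2 (D2 f) q))) = fun _ => 0 := funext S.f1_f22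
  rw [h2, D1_const] at h1
  -- derivative of `(inner ℝ (f_u) (f_uv)) = a a'` in `v`
  have h3 := D2_inner (S.d1.differentiable (by norm_num) p) (S.d21.differentiable (by norm_num) p)
  have h4 : (fun q => (inner ℝ (D1 f q) (D2 (D1 f) q))) = fun q => a q.2 * a1 q.2 := funext S.f1_f12
  have h5 : HasDerivAt (fun v => a v * a1 v) (a1 p.2 * a1 p.2 + a p.2 * a2 p.2) p.2 :=
    (S.ha p.2).mul (S.ha1 p.2)
  rw [h4, D2_snd h5] at h3
  -- third derivatives
  have h6 : D1 (D2 (D2 f)) p = D2 (D2 (D1 f)) p := by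
    rw [D1_D2_comm S.d2 p, S.comm']
  rw [h6] at h1
  linarith

/-! #### the normal -/

end Surf

/-- the unit normal -/
def nor (f : ℝ × ℝ → E3) (a : ℝ → ℝ) (r : ℝ) (p : ℝ × ℝ) : E3 :=
  (1 / (a p.2 * r)) • cross (D1 f p) (D2 f p)

/-- the adapted frame -/
def frame (f : ℝ × ℝ → E3) (a : ℝ → ℝ) (r : ℝ) (p : ℝ × ℝ) : Fin 3 → E3 :=
  ![(1 / a p.2) • D1 f p, (1 / r) • D2 f p, nor f a r p]

namespace Surf

variable {f : ℝ × ℝ → E3} {a a1 a2 : ℝ → ℝ} {r : ℝ} (S : Surf f a a1 a2 r)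

include S

theorem nor_smooth : ContDiff ℝ 2 (nor f a r) := by
  have h : ContDiff ℝ 2 (fun p : ℝ × ℝ => (1 / (a p.2 * r) : ℝ)) := by
    refine contDiff_const.div ((S.asm.comp contDiff_snd).mul contDiff_const) ?_
    intro p
    have := S.apos p.2
    have := S.rpos
    positivity
  exact h.smul (contDiff_cross S.d1 S.d2)


theorem nor_f1 (p : ℝ × ℝ) : (inner ℝ (nor f a r p) (D1 f p)) = 0 := by
  simp [nor, inner_smul_left, cross_inner_left]


theorem nor_f2 (p : ℝ × ℝ) : (inner ℝ (nor f a r p) (D2 f p)) = 0 := by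
  simp [nor, inner_smul_left, cross_inner_right]

theorem nor_nor (p : ℝ × ℝ) : (inner ℝ (nor f a r p) (nor f a r p)) = 1 := by
  have h1 := (S.apos p.2).ne'
  have h2 := S.rpos.ne'
  unfold nor
  rw [real_inner_smul_left, real_inner_smul_right, cross_inner_self, S.hE, S.hF, S.hG]
  field_simp
  ring

theorem on (p : ℝ × ℝ) : ON (frame f a r p) := by
  have h1 := (S.apos p.2).ne'
  have h2 := S.rpos.ne'
  refine ⟨fun i j => ?_⟩
  fin_cases i <;> fin_cases j <;>
    simp only [frame, Fin.zero_eta, Fin.mk_one, Fin.reduceFinMk, Matrix.cons_val,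
      real_inner_smul_left, real_inner_smul_right, S.nor_nor, S.nor_f1, S.nor_f2, S.hE, S.hF, S.hG,
      real_inner_comm (D1 f p) (D2 f p), real_inner_comm (nor f a r p) (D1 f p),
      real_inner_comm (nor f a r p) (D2 f p), mul_zero] <;> simp <;> field_simp

theorem second_form (p : ℝ × ℝ) :
    (inner ℝ (D1 (D1 f) p) (nor f a r p)) * (inner ℝ (D2 (D2 f) p) (nor f a r p))
      - (inner ℝ (D2 (D1 f) p) (nor f a r p)) ^ 2 = - (a p.2 * a2 p.2) := by
  have h1 := (S.apos p.2).ne'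
  have h2 := S.rpos.ne'
  have P1 := (S.on p).parseval (D1 (D1 f) p) (D2 (D2 f) p)
  have P2 := (S.on p).parseval (D2 (D1 f) p) (D2 (D1 f) p)
  simp only [frame, Matrix.cons_val, real_inner_smul_right] at P1 P2
  rw [real_inner_comm (D1 f p) (D2 (D2 f) p), S.f1_f22, real_inner_comm (D2 f p) (D2 (D2 f) p),
    S.f2_f22] at P1
  rw [real_inner_comm (D1 f p) (D2 (D1 f) p), S.f1_f12, real_inner_comm (D2 f p) (D2 (D1 f) p),
    S.f2_f12] at P2
  have G := S.gauss p
  rw [P1, P2] at G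
  have h3 : 1 / a p.2 * (a p.2 * a1 p.2) = a1 p.2 := by field_simp
  rw [h3] at G
  linarith

theorem d1n_f1 (p : ℝ × ℝ) : (inner ℝ (D1 f p) (D1 (nor f a r) p)) = - (inner ℝ (D1 (D1 f) p) (nor f a r p)) := by
  have h := D1_inner (S.d1.differentiable (by norm_num) p)
    (S.nor_smooth.differentiable (by norm_num) p)
  have h2 : (fun q => (inner ℝ (D1 f q) (nor f a r q))) = fun _ => 0 :=
    funext fun q => by rw [real_inner_comm]; exact S.nor_f1 q
  rw [h2, D1_const] at h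
  linarith

theorem d2n_f1 (p : ℝ × ℝ) : (inner ℝ (D1 f p) (D2 (nor f a r) p)) = - (inner ℝ (D2 (D1 f) p) (nor f a r p)) := by
  have h := D2_inner (S.d1.differentiable (by norm_num) p)
    (S.nor_smooth.differentiable (by norm_num) p)
  have h2 : (fun q => (inner ℝ (D1 f q) (nor f a r q))) = fun _ => 0 :=
    funext fun q => by rw [real_inner_comm]; exact S.nor_f1 q
  rw [h2, D2_const] at h
  linarith

theorem d1n_f2 (p : ℝ × ℝ) : (inner ℝ (D2 f p) (D1 (nor f a r) p)) = - (inner ℝ (D2 (D1 f) p) (nor f a r p)) := by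
  have h := D1_inner (S.d2.differentiable (by norm_num) p)
    (S.nor_smooth.differentiable (by norm_num) p)
  have h2 : (fun q => (inner ℝ (D2 f q) (nor f a r q))) = fun _ => 0 :=
    funext fun q => by rw [real_inner_comm]; exact S.nor_f2 q
  rw [h2, D1_const, S.comm] at h
  linarith

theorem d2n_f2 (p : ℝ × ℝ) : (inner ℝ (D2 f p) (D2 (nor f a r) p)) = - (inner ℝ (D2 (D2 f) p) (nor f a r p)) := by
  have h := D2_inner (S.d2.differentiable (by norm_num) p)
    (S.nor_smooth.differentiable (by norm_num) p)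
  have h2 : (fun q => (inner ℝ (D2 f q) (nor f a r q))) = fun _ => 0 :=
    funext fun q => by rw [real_inner_comm]; exact S.nor_f2 q
  rw [h2, D2_const] at h
  linarith

theorem d1n_n (p : ℝ × ℝ) : (inner ℝ (nor f a r p) (D1 (nor f a r) p)) = 0 := by
  have h := D1_inner (S.nor_smooth.differentiable (by norm_num) p)
    (S.nor_smooth.differentiable (by norm_num) p)
  have h2 : (fun q => (inner ℝ (nor f a r q) (nor f a r q))) = fun _ => 1 := funext S.nor_nor
  rw [h2, D1_const] at h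
  linarith [real_inner_comm (nor f a r p) (D1 (nor f a r) p)]

theorem d2n_n (p : ℝ × ℝ) : (inner ℝ (nor f a r p) (D2 (nor f a r) p)) = 0 := by
  have h := D2_inner (S.nor_smooth.differentiable (by norm_num) p)
    (S.nor_smooth.differentiable (by norm_num) p)
  have h2 : (fun q => (inner ℝ (nor f a r q) (nor f a r q))) = fun _ => 1 := funext S.nor_nor
  rw [h2, D2_const] at h
  linarith [real_inner_comm (nor f a r p) (D2 (nor f a r) p)]

/-- the cone map over the Gauss map: determinant of its derivative -/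
theorem abs_det (p : ℝ × ℝ) (s t : ℝ) (hs : s = 1 ∨ s = -1) :
    |(T ![(s * t) • D1 (nor f a r) p, (s * t) • D2 (nor f a r) p, s • nor f a r p]).det|
      = t ^ 2 * (|a2 p.2| / r) := by
  have h1 := S.apos p.2
  have h2 := S.rpos
  rw [T_abs_det (S.on p)]
  have hsq : s ^ 2 = 1 := by rcases hs with h | h <;> simp [h]
  have hs1 : |s| = 1 := by rcases hs with h | h <;> simp [h]
  have key : (Matrix.of fun i j => (inner ℝ (frame f a r p i) ((![(s * t) • D1 (nor f a r) p, (s * t) • D2 (nor f a r) p, s • nor f a r p] : Fin 3 → E3) j)) :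
      Matrix (Fin 3) (Fin 3) ℝ).det = - s * (t ^ 2 * (a2 p.2 / r)) := by
    rw [Matrix.det_fin_three]
    simp only [Matrix.of_apply, frame, Matrix.cons_val, real_inner_smul_left,
      real_inner_smul_right, S.d1n_f1, S.d1n_f2, S.d2n_f1, S.d2n_f2, S.d1n_n, S.d2n_n, S.nor_nor,
      real_inner_comm (nor f a r p) (D1 f p), real_inner_comm (nor f a r p) (D2 f p), S.nor_f1,
      S.nor_f2]
    have h3 := S.second_form p
    have : (s * t * (1 / a p.2 * -(inner ℝ (D1 (D1 f) p) (nor f a r p))))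
        * (s * t * (1 / r * -(inner ℝ (D2 (D2 f) p) (nor f a r p))))
        - (s * t * (1 / a p.2 * -(inner ℝ (D2 (D1 f) p) (nor f a r p))))
        * (s * t * (1 / r * -(inner ℝ (D2 (D1 f) p) (nor f a r p))))
        = s ^ 2 * t ^ 2 * (1 / (a p.2 * r)) * ((inner ℝ (D1 (D1 f) p) (nor f a r p))
            * (inner ℝ (D2 (D2 f) p) (nor f a r p)) - (inner ℝ (D2 (D1 f) p) (nor f a r p)) ^ 2) := by
      field_simp
    rw [h3, hsq] at this
    have h4 : s * ((s * t * (1 / a p.2 * -(inner ℝ (D1 (D1 f) p) (nor f a r p))))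
        * (s * t * (1 / r * -(inner ℝ (D2 (D2 f) p) (nor f a r p))))
        - (s * t * (1 / a p.2 * -(inner ℝ (D2 (D1 f) p) (nor f a r p))))
        * (s * t * (1 / r * -(inner ℝ (D2 (D1 f) p) (nor f a r p))))) = - s * (t ^ 2 * (a2 p.2 / r)) := by
      rw [this]
      field_simp
    rw [← h4]
    ring
  rw [key, abs_mul, abs_neg, hs1, one_mul, abs_mul, abs_div, abs_of_pos h2,
    abs_of_nonneg (sq_nonneg t)]

end Surf

end Pool.Agent.Helper34.Torus
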