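import Pool.Agent.Helper34.Torus1

/-!
The second derivative test and the total curvature inequality for MP_665542_gt.
-/

open MeasureTheory Set Filter Topology
open scoped ContDiff Real ENNReal

noncomputable section

set_option linter.unusedSectionVars false

namespace Pool.Agent.Helper34.Torus

/-- necessary condition of second order at a local maximum, one variable -/
theorem deriv_deriv_nonpos {φ : ℝ → ℝ} (hφ : ContDiff ℝ 2 φ) (h : IsLocalMax φ 0) :
    deriv (deriv φ) 0 ≤ 0 := by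
  by_contra hc
  push Not at hc
  have h0 : deriv φ 0 = 0 := h.deriv_eq_zero
  have hmin := isLocalMin_of_deriv_deriv_pos hc h0 hφ.continuous.continuousAt
  have hconst : φ =ᶠ[𝓝 0] fun _ => φ 0 := by
    filter_upwards [h, hmin] with x hx1 hx2
    exact le_antisymm hx1 hx2
  have h1 : deriv φ =ᶠ[𝓝 0] deriv (fun _ => φ 0) := hconst.deriv
  have h2 : deriv (deriv φ) 0 = 0 := by
    rw [h1.deriv_eq]
    simp
  linarith

theorem quad_nonpos {h : ℝ × ℝ → ℝ} (hh : ContDiff ℝ 2 h) {p : ℝ × ℝ} (hp : ∀ q, h q ≤ h p)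
    (α β : ℝ) :
    α ^ 2 * D1 (D1 h) p + 2 * α * β * D2 (D1 h) p + β ^ 2 * D2 (D2 h) p ≤ 0 := by
  set w : ℝ × ℝ := (α, β) with hw
  let L : ℝ → ℝ × ℝ := fun s => p + s • w
  have hL : ∀ s, HasDerivAt L w s := by
    intro s
    show HasDerivAt (fun s : ℝ => p + s • w) w s
    have := ((hasDerivAt_id s).smul_const w).const_add p
    simpa using this
  have hLs : ContDiff ℝ 2 L := contDiff_const.add (contDiff_id.smul contDiff_const)
  have hd : ∀ s, HasDerivAt (h ∘ L) (fderiv ℝ h (L s) w) s := by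
    intro s
    exact (hh.differentiable (by norm_num) (L s)).hasFDerivAt.comp_hasDerivAt s (hL s)
  have hd1 : deriv (h ∘ L) = fun s => fderiv ℝ h (L s) w := funext fun s => (hd s).deriv
  have hf1 : DifferentiableAt ℝ (fderiv ℝ h) p :=
    (hh.fderiv_right (m := 1) (by norm_num)).differentiable (by norm_num) p
  have hL0 : L 0 = p := by simp [L]
  have hd2 : HasDerivAt (fun s => fderiv ℝ h (L s) w) (fderiv ℝ (fderiv ℝ h) p w w) 0 := by
    have h1 : HasFDerivAt (fderiv ℝ h) (fderiv ℝ (fderiv ℝ h) p) (L 0) := by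
      rw [hL0]; exact hf1.hasFDerivAt
    have h2 := h1.comp_hasDerivAt (0 : ℝ) (hL 0)
    have h3 := h2.clm_apply (hasDerivAt_const (0 : ℝ) w)
    simpa using h3
  have hmax : IsLocalMax (h ∘ L) 0 := by
    refine Filter.Eventually.of_forall fun s => ?_
    show h (L s) ≤ h (L 0)
    rw [hL0]
    exact hp _
  have key := deriv_deriv_nonpos (hh.comp hLs) hmax
  rw [hd1, hd2.deriv] at key
  have hw2 : w = α • ((1 : ℝ), (0 : ℝ)) + β • ((0 : ℝ), (1 : ℝ)) := by
    simp [hw]
  have hexp : fderiv ℝ (fderiv ℝ h) p w w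
      = α ^ 2 * D1 (D1 h) p + 2 * α * β * D2 (D1 h) p + β ^ 2 * D2 (D2 h) p := by
    have hc := D1_D2_comm hh p
    unfold D1 D2 at hc ⊢
    simp only [fderiv_fderiv_apply hh] at hc ⊢
    rw [hw2]
    simp only [map_add, map_smul, add_apply, smul_apply,
      smul_eq_mul]
    rw [hc]
    ring
  rw [← hexp]
  exact key

theorem disc_nonneg {P R S : ℝ} (h : ∀ α β : ℝ, α ^ 2 * P + 2 * α * β * R + β ^ 2 * S ≤ 0) :
    0 ≤ P * S - R ^ 2 := by
  have hP := h 1 0
  have hS := h 0 1
  simp only [one_pow, one_mul, mul_zero, zero_mul, add_zero, mul_one, ne_eq, OfNat.ofNat_ne_zero,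
    not_false_eq_true, zero_pow, zero_add] at hP hS
  rcases hP.lt_or_eq with hP' | hP'
  · have h1 := h R (-P)
    have h2 : P * (P * S - R ^ 2) ≤ 0 := by nlinarith
    by_contra hc
    push Not at hc
    have := mul_pos_of_neg_of_neg hP' hc
    linarith
  · subst hP'
    have hR : R = 0 := by
      by_contra hR
      have h1 := h ((1 - S) / (2 * R)) 1
      field_simp at h1
      have : (1 : ℝ) ≤ 0 := by
        have h2 := h ((1 - S) / (2 * R)) 1
        have h3 : 2 * ((1 - S) / (2 * R)) * 1 * R = 1 - S := by field_simp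
        simp only [mul_zero, zero_add, one_pow, one_mul] at h2
        rw [h3] at h2
        linarith
      linarith
    rw [hR]
    simp

namespace Surf

variable {f : ℝ × ℝ → E3} {a a1 a2 : ℝ → ℝ} {r : ℝ} (S : Surf f a a1 a2 r)

include S

/-- the second derivatives of `(inner ℝ (f) (ν))` -/
theorem height (ν : E3) (p : ℝ × ℝ) :
    D1 (D1 fun q => (inner ℝ (f q) (ν))) p = (inner ℝ (D1 (D1 f) p) (ν)) ∧
    D2 (D1 fun q => (inner ℝ (f q) (ν))) p = (inner ℝ (D2 (D1 f) p) (ν)) ∧
    D2 (D2 fun q => (inner ℝ (f q) (ν))) p = (inner ℝ (D2 (D2 f) p) (ν)) ∧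
    D1 (fun q => (inner ℝ (f q) (ν))) p = (inner ℝ (D1 f p) (ν)) ∧ D2 (fun q => (inner ℝ (f q) (ν))) p = (inner ℝ (D2 f p) (ν)) := by
  have e1 : D1 (fun q => (inner ℝ (f q) (ν))) = fun q => (inner ℝ (D1 f q) (ν)) := by
    funext q
    rw [D1_inner (S.smooth.differentiable (by norm_num) q) (differentiableAt_const ν)]
    simp [D1_const]
  have e2 : D2 (fun q => (inner ℝ (f q) (ν))) = fun q => (inner ℝ (D2 f q) (ν)) := by
    funext q
    rw [D2_inner (S.smooth.differentiable (by norm_num) q) (differentiableAt_const ν)]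
    simp [D2_const]
  rw [e1, e2]
  refine ⟨?_, ?_, ?_, rfl, rfl⟩
  · rw [D1_inner (S.d1.differentiable (by norm_num) p) (differentiableAt_const ν)]
    simp [D1_const]
  · rw [D2_inner (S.d1.differentiable (by norm_num) p) (differentiableAt_const ν)]
    simp [D2_const]
  · rw [D2_inner (S.d2.differentiable (by norm_num) p) (differentiableAt_const ν)]
    simp [D2_const]

theorem height_smooth (ν : E3) : ContDiff ℝ 2 fun q => (inner ℝ (f q) (ν)) :=
  (S.smooth.of_le (by norm_num)).inner ℝ contDiff_const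

/-- at a point where the height in direction `± n` is maximal, `a'' ≤ 0` -/
theorem a2_nonpos {p : ℝ × ℝ} {s : ℝ} (hs : s = 1 ∨ s = -1)
    (hp : ∀ q, (inner ℝ (f q) (s • nor f a r p)) ≤ (inner ℝ (f p) (s • nor f a r p))) : a2 p.2 ≤ 0 := by
  obtain ⟨e1, e2, e3, -, -⟩ := S.height (s • nor f a r p) p
  have h1 : ∀ α β : ℝ, α ^ 2 * (s * (inner ℝ (D1 (D1 f) p) (nor f a r p)))
      + 2 * α * β * (s * (inner ℝ (D2 (D1 f) p) (nor f a r p)))
      + β ^ 2 * (s * (inner ℝ (D2 (D2 f) p) (nor f a r p))) ≤ 0 := by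
    intro α β
    have := quad_nonpos (S.height_smooth (s • nor f a r p)) hp α β
    rw [e1, e2, e3] at this
    simpa only [real_inner_smul_right] using this
  have h2 := disc_nonneg h1
  have hsq : s ^ 2 = 1 := by rcases hs with h | h <;> simp [h]
  have h3 := S.second_form p
  have h4 : s * (inner ℝ (D1 (D1 f) p) (nor f a r p)) * (s * (inner ℝ (D2 (D2 f) p) (nor f a r p)))
      - (s * (inner ℝ (D2 (D1 f) p) (nor f a r p))) ^ 2 = - (a p.2 * a2 p.2) := by
    rw [← h3]
    linear_combination ((inner ℝ (D1 (D1 f) p) (nor f a r p)) * (inner ℝ (D2 (D2 f) p) (nor f a r p))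
      - (inner ℝ (D2 (D1 f) p) (nor f a r p)) ^ 2) * hsq
  rw [h4] at h2
  have := S.apos p.2
  by_contra hc
  push Not at hc
  have := mul_pos this hc
  linarith

/-- if both heights are maximal, `a'' = 0` -/
theorem a2_zero {p : ℝ × ℝ}
    (hp : ∀ q, (inner ℝ (f q) ((1 : ℝ) • nor f a r p)) ≤ (inner ℝ (f p) ((1 : ℝ) • nor f a r p)))
    (hm : ∀ q, (inner ℝ (f q) ((-1 : ℝ) • nor f a r p)) ≤ (inner ℝ (f p) ((-1 : ℝ) • nor f a r p))) : a2 p.2 = 0 := by
  obtain ⟨e1, e2, e3, -, -⟩ := S.height ((1 : ℝ) • nor f a r p) p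
  obtain ⟨g1, g2, g3, -, -⟩ := S.height ((-1 : ℝ) • nor f a r p) p
  have h1 : ∀ α β : ℝ, α ^ 2 * (1 * (inner ℝ (D1 (D1 f) p) (nor f a r p)))
      + 2 * α * β * (1 * (inner ℝ (D2 (D1 f) p) (nor f a r p)))
      + β ^ 2 * (1 * (inner ℝ (D2 (D2 f) p) (nor f a r p))) ≤ 0 := by
    intro α β
    have := quad_nonpos (S.height_smooth ((1 : ℝ) • nor f a r p)) hp α β
    rw [e1, e2, e3] at this
    simpa only [real_inner_smul_right] using this
  have h2 : ∀ α β : ℝ, α ^ 2 * (-1 * (inner ℝ (D1 (D1 f) p) (nor f a r p)))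
      + 2 * α * β * (-1 * (inner ℝ (D2 (D1 f) p) (nor f a r p)))
      + β ^ 2 * (-1 * (inner ℝ (D2 (D2 f) p) (nor f a r p))) ≤ 0 := by
    intro α β
    have := quad_nonpos (S.height_smooth ((-1 : ℝ) • nor f a r p)) hm α β
    rw [g1, g2, g3] at this
    simpa only [real_inner_smul_right] using this
  have h3 := S.second_form p
  set L := (inner ℝ (D1 (D1 f) p) (nor f a r p))
  set M := (inner ℝ (D2 (D1 f) p) (nor f a r p))
  set N := (inner ℝ (D2 (D2 f) p) (nor f a r p))
  have hL : L = 0 := by nlinarith [h1 1 0, h2 1 0]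
  have hN : N = 0 := by nlinarith [h1 0 1, h2 0 1]
  have hM : M = 0 := by nlinarith [h1 1 1, h2 1 1]
  rw [hL, hM, hN] at h3
  have h4 : a p.2 * a2 p.2 = 0 := by nlinarith
  rcases mul_eq_zero.mp h4 with h | h
  · exact absurd h (S.apos p.2).ne'
  · exact h

/-- a unit vector normal to `f_u`, `f_v` is `± n` -/
theorem eq_nor {p : ℝ × ℝ} {ν : E3} (hν : (inner ℝ (ν) (ν)) = (1 : ℝ)) (h1 : (inner ℝ (D1 f p) (ν)) = 0)
    (h2 : (inner ℝ (D2 f p) (ν)) = 0) : ∃ s : ℝ, (s = 1 ∨ s = -1) ∧ ν = s • nor f a r p := by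
  have P := (S.on p).parseval
  have hx : ∀ x : E3, (inner ℝ (x) (ν)) = (inner ℝ (x) (nor f a r p)) * (inner ℝ (ν) (nor f a r p)) := by
    intro x
    rw [P x ν]
    simp only [frame, Matrix.cons_val, real_inner_smul_right, real_inner_comm (D1 f p) ν,
      real_inner_comm (D2 f p) ν, h1, h2]
    ring
  refine ⟨(inner ℝ (ν) (nor f a r p)), ?_, ?_⟩
  · have := hx ν
    rw [hν] at this
    have h3 : ((inner ℝ (ν) (nor f a r p)) - 1) * ((inner ℝ (ν) (nor f a r p)) + 1) = 0 := by linarith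
    rcases mul_eq_zero.mp h3 with h | h
    · left; linarith
    · right; linarith
  · refine ext_inner_left ℝ fun x => ?_
    rw [hx x, real_inner_smul_right]
    ring

end Surf

/-! ### The cone over the Gauss map -/

/-- the fundamental domain -/
def Dom : Set (ℝ × ℝ) := Icc (0 : ℝ) (2 * π) ×ˢ Icc (-π) π

/-- the points of the fundamental domain where the height in direction `s n` is maximal -/
def Top (f : ℝ × ℝ → E3) (a : ℝ → ℝ) (r s : ℝ) : Set (ℝ × ℝ) :=
  {p | p ∈ Dom ∧ ∀ q, (inner ℝ (f q) (s • nor f a r p)) ≤ (inner ℝ (f p) (s • nor f a r p))}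

/-- the projection to the first two coordinates -/
def pr : E3 →L[ℝ] ℝ × ℝ :=
  (EuclideanSpace.proj (0 : Fin 3) : E3 →L[ℝ] ℝ).prod (EuclideanSpace.proj (1 : Fin 3))

theorem pr_apply (x : E3) : pr x = (x 0, x 1) := rfl

/-- the solid over `Top` -/
def Solid (f : ℝ × ℝ → E3) (a : ℝ → ℝ) (r s : ℝ) : Set E3 :=
  {x | pr x ∈ Top f a r s ∧ 0 ≤ x 2 ∧ x 2 < 1}

/-- the cone map -/
def cone (f : ℝ × ℝ → E3) (a : ℝ → ℝ) (r s : ℝ) (x : E3) : E3 := (s * x 2) • nor f a r (pr x)

namespace Surf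

variable {f : ℝ × ℝ → E3} {a a1 a2 : ℝ → ℝ} {r : ℝ} (S : Surf f a a1 a2 r)

include S

theorem cone_deriv (s : ℝ) (x : E3) :
    HasFDerivAt (cone f a r s)
      (T ![(s * x 2) • D1 (nor f a r) (pr x), (s * x 2) • D2 (nor f a r) (pr x),
        s • nor f a r (pr x)]) x := by
  have h1 : HasFDerivAt (fun x : E3 => s * x 2)
      (s • (EuclideanSpace.proj (2 : Fin 3) : E3 →L[ℝ] ℝ)) x := by
    have : HasFDerivAt (fun x : E3 => x 2) (EuclideanSpace.proj (2 : Fin 3) : E3 →L[ℝ] ℝ) x :=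
      (EuclideanSpace.proj (2 : Fin 3) : E3 →L[ℝ] ℝ).hasFDerivAt
    simpa using this.const_mul s
  have h2 : HasFDerivAt (fun x : E3 => nor f a r (pr x))
      ((fderiv ℝ (nor f a r) (pr x)).comp pr) x :=
    (S.nor_smooth.differentiable (by norm_num) (pr x)).hasFDerivAt.comp x pr.hasFDerivAt
  have h3 := h1.smul h2
  refine h3.congr_fderiv ?_
  ext1 y
  rw [T_apply]
  have hy : pr y = y 0 • ((1 : ℝ), (0 : ℝ)) + y 1 • ((0 : ℝ), (1 : ℝ)) := by
    rw [pr_apply]; simp
  have e : fderiv ℝ (nor f a r) (pr x) (pr y)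
      = y 0 • D1 (nor f a r) (pr x) + y 1 • D2 (nor f a r) (pr x) := by
    rw [hy, map_add, map_smul, map_smul]
    rfl
  simp only [add_apply, smul_apply, ContinuousLinearMap.comp_apply, Matrix.cons_val,
    ContinuousLinearMap.smulRight_apply, e, smul_add, smul_smul]
  have e3 : (EuclideanSpace.proj (2 : Fin 3) : E3 →L[ℝ] ℝ) y = y 2 := rfl
  simp only [smul_eq_mul, e3]
  rw [mul_comm (s * x 2) (y 0), mul_comm (s * x 2) (y 1), mul_comm s (y 2)]

theorem measurable_solid (s : ℝ) : MeasurableSet (Solid f a r s) := by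
  have hn : Continuous (nor f a r) := S.nor_smooth.continuous
  have hf : Continuous f := S.smooth.continuous
  have h1 : IsClosed (Top f a r s) := by
    have e : Top f a r s
        = Dom ∩ ⋂ q : ℝ × ℝ, {p | (inner ℝ (f q) (s • nor f a r p)) ≤ (inner ℝ (f p) (s • nor f a r p))} := by
      ext p
      simp [Top]
    rw [e]
    refine (isClosed_Icc.prod isClosed_Icc).inter (isClosed_iInter fun q => ?_)
    exact isClosed_le (continuous_const.inner (hn.const_smul s)) (hf.inner (hn.const_smul s))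
  have h2 : MeasurableSet (pr ⁻¹' (Top f a r s)) := (h1.preimage pr.continuous).measurableSet
  have h3 : Measurable fun x : E3 => x 2 :=
    (EuclideanSpace.proj (2 : Fin 3) : E3 →L[ℝ] ℝ).continuous.measurable
  exact h2.inter ((measurableSet_le measurable_const h3).inter
    (measurableSet_lt h3 measurable_const))

theorem image_le (s : ℝ) (hs : s = 1 ∨ s = -1) :
    volume (cone f a r s '' Solid f a r s)
      ≤ ∫⁻ x in Solid f a r s, ENNReal.ofReal ((x 2) ^ 2 * (|a2 (x 1)| / r)) := by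
  have h := addHaar_image_le_lintegral_abs_det_fderiv (volume : Measure E3)
    (S.measurable_solid s) (fun x _ => (S.cone_deriv s x).hasFDerivWithinAt)
  refine h.trans (le_of_eq ?_)
  refine lintegral_congr fun x => ?_
  rw [S.abs_det (pr x) s (x 2) hs]
  rfl

theorem cover (h1 : ∀ u v, f (u + 2 * π, v) = f (u, v)) (h2 : ∀ u v, f (u, v + 2 * π) = f (u, v)) :
    Metric.ball (0 : E3) 1 ⊆ cone f a r 1 '' Solid f a r 1 ∪ cone f a r (-1) '' Solid f a r (-1) := by
  intro y hy
  rw [mem_ball_zero_iff] at hy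
  obtain ⟨ν, hν1, hν2⟩ : ∃ ν : E3, (inner ℝ (ν) (ν)) = (1 : ℝ) ∧ y = ‖y‖ • ν := by
    by_cases h0 : y = 0
    · refine ⟨EuclideanSpace.single 0 1, ?_, by simp [h0]⟩
      rw [inner_coord]
      simp
    · refine ⟨‖y‖⁻¹ • y, ?_, ?_⟩
      · rw [real_inner_smul_left, real_inner_smul_right, real_inner_self_eq_norm_sq]
        have : ‖y‖ ≠ 0 := norm_ne_zero_iff.mpr h0
        field_simp
      · rw [smul_smul, mul_inv_cancel₀ (norm_ne_zero_iff.mpr h0), one_smul]
  have hcont : Continuous fun q => (inner ℝ (f q) (ν)) := S.smooth.continuous.inner continuous_const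
  have hcomp : IsCompact Dom := isCompact_Icc.prod isCompact_Icc
  have hne : Dom.Nonempty := ⟨(0, 0), by
    constructor
    · constructor <;> simp [Real.pi_pos.le]
    · constructor <;> simp [Real.pi_pos.le]⟩
  obtain ⟨p, hp, hmax⟩ := hcomp.exists_isMaxOn hne hcont.continuousOn
  have hglob : ∀ q, (inner ℝ (f q) (ν)) ≤ (inner ℝ (f p) (ν)) := by
    rintro ⟨u, v⟩
    obtain ⟨u', hu', e1⟩ := Function.Periodic.exists_mem_Ico₀
      (f := fun u => f (u, v)) (c := 2 * π) (fun u => h1 u v) (by positivity) u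
    obtain ⟨v', hv', e2⟩ := Function.Periodic.exists_mem_Ico
      (f := fun v => f (u', v)) (c := 2 * π) (fun v => h2 u' v) (by positivity) v (-π)
    rw [e1, e2]
    refine hmax (show (u', v') ∈ Dom from ⟨⟨hu'.1, hu'.2.le⟩, ⟨hv'.1, ?_⟩⟩)
    have := hv'.2
    show v' ≤ π
    linarith
  have hloc : IsLocalMax (fun q => (inner ℝ (f q) (ν))) p := Filter.Eventually.of_forall hglob
  have hd := hloc.fderiv_eq_zero
  obtain ⟨-, -, -, g1, g2⟩ := S.height ν p
  have k1 : (inner ℝ (D1 f p) (ν)) = (0 : ℝ) := by rw [← g1, D1, hd]; rfl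
  have k2 : (inner ℝ (D2 f p) (ν)) = (0 : ℝ) := by rw [← g2, D2, hd]; rfl
  obtain ⟨s, hs, hνs⟩ := S.eq_nor hν1 k1 k2
  have key : y ∈ cone f a r s '' Solid f a r s := by
    refine ⟨!₂[p.1, p.2, ‖y‖], ⟨⟨hp, ?_⟩, ?_, ?_⟩, ?_⟩
    · intro q
      have e : pr !₂[p.1, p.2, ‖y‖] = p := rfl
      rw [e, ← hνs]
      exact hglob q
    · simp
    · simpa using hy
    · have e : pr !₂[p.1, p.2, ‖y‖] = p := rfl
      have e2 : (!₂[p.1, p.2, ‖y‖] : E3) 2 = ‖y‖ := rfl
      rw [cone, e, e2, mul_comm, ← smul_smul, ← hνs]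
      exact hν2.symm
  rcases hs with rfl | rfl
  · exact Or.inl key
  · exact Or.inr key

end Surf

/-! ### The integral -/

/-- the integral of the product function over `[0,2π] × [-π,π] × [0,1)` -/
theorem lintegral_box {k : ℝ → ℝ} (hk : Continuous k) (hk0 : ∀ v, 0 ≤ k v) :
    ∫⁻ x in {x : E3 | pr x ∈ Dom ∧ 0 ≤ x 2 ∧ x 2 < 1}, ENNReal.ofReal ((x 2) ^ 2 * k (x 1))
      = ENNReal.ofReal (2 * π * (∫ v in (-π)..π, k v) * (1 / 3)) := by
  let φ : Fin 3 → ℝ → ℝ := ![(Icc (0 : ℝ) (2 * π)).indicator fun _ => 1, (Icc (-π) π).indicator k,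
    (Ico (0 : ℝ) 1).indicator fun t => t ^ 2]
  have hφint : ∀ i, Integrable (φ i) := by
    intro i
    fin_cases i
    · exact (integrable_indicator_iff measurableSet_Icc).mpr
        (continuous_const.continuousOn.integrableOn_Icc)
    · exact (integrable_indicator_iff measurableSet_Icc).mpr
        (hk.continuousOn.integrableOn_Icc)
    · refine (integrable_indicator_iff measurableSet_Ico).mpr ?_
      exact ((continuous_pow 2).continuousOn.integrableOn_Icc (a := 0) (b := 1)).mono_set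
        Ico_subset_Icc_self
  have hφ0 : ∀ i t, 0 ≤ φ i t := by
    intro i t
    fin_cases i
    · exact indicator_nonneg (fun _ _ => zero_le_one) t
    · exact indicator_nonneg (fun v _ => hk0 v) t
    · exact indicator_nonneg (fun v _ => sq_nonneg v) t
  have hmeas : MeasurableSet {x : E3 | pr x ∈ Dom ∧ 0 ≤ x 2 ∧ x 2 < 1} := by
    have h2 : MeasurableSet (pr ⁻¹' Dom) :=
      ((isClosed_Icc.prod isClosed_Icc).preimage pr.continuous).measurableSet
    have h3 : Measurable fun x : E3 => x 2 :=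
      (EuclideanSpace.proj (2 : Fin 3) : E3 →L[ℝ] ℝ).continuous.measurable
    exact h2.inter ((measurableSet_le measurable_const h3).inter
      (measurableSet_lt h3 measurable_const))
  have e1 : ∫⁻ x in {x : E3 | pr x ∈ Dom ∧ 0 ≤ x 2 ∧ x 2 < 1},
      ENNReal.ofReal ((x 2) ^ 2 * k (x 1))
      = ∫⁻ x : E3, ENNReal.ofReal (∏ i, φ i ((MeasurableEquiv.toLp 2 (Fin 3 → ℝ)).symm x i)) := by
    rw [← lintegral_indicator hmeas]
    refine lintegral_congr fun x => ?_
    have hx : ∀ i, (MeasurableEquiv.toLp 2 (Fin 3 → ℝ)).symm x i = x i := fun i => rfl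
    simp only [hx, Fin.prod_univ_three]
    show _ = ENNReal.ofReal ((Icc (0 : ℝ) (2 * π)).indicator (fun _ => 1) (x 0)
      * (Icc (-π) π).indicator k (x 1) * (Ico (0 : ℝ) 1).indicator (fun t => t ^ 2) (x 2))
    by_cases h : pr x ∈ Dom ∧ 0 ≤ x 2 ∧ x 2 < 1
    · rw [indicator_of_mem (show x ∈ {x : E3 | pr x ∈ Dom ∧ 0 ≤ x 2 ∧ x 2 < 1} from h)]
      obtain ⟨⟨ha, hb⟩, hc, hd⟩ := h
      rw [indicator_of_mem (show x 0 ∈ Icc (0 : ℝ) (2 * π) from ha),
        indicator_of_mem (show x 1 ∈ Icc (-π) π from hb),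
        indicator_of_mem (show x 2 ∈ Ico (0 : ℝ) 1 from ⟨hc, hd⟩)]
      congr 1
      ring
    · rw [indicator_of_notMem (show x ∉ {x : E3 | pr x ∈ Dom ∧ 0 ≤ x 2 ∧ x 2 < 1} from h)]
      by_cases ha : x 0 ∈ Icc (0 : ℝ) (2 * π)
      · by_cases hb : x 1 ∈ Icc (-π) π
        · have hc : x 2 ∉ Ico (0 : ℝ) 1 := fun hc => h ⟨⟨ha, hb⟩, hc.1, hc.2⟩
          rw [indicator_of_notMem hc]
          simp
        · rw [indicator_of_notMem hb]
          simp
      · rw [indicator_of_notMem ha]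
        simp
  rw [e1, (EuclideanSpace.volume_preserving_symm_measurableEquiv_toLp (Fin 3)).lintegral_comp_emb
    (MeasurableEquiv.measurableEmbedding _) (fun y : Fin 3 → ℝ => ENNReal.ofReal (∏ i, φ i (y i))),
    ← ofReal_integral_eq_lintegral_ofReal]
  · congr 1
    rw [MeasureTheory.integral_fintype_prod_volume_eq_prod (fun i => φ i), Fin.prod_univ_three]
    show (∫ t, (Icc (0 : ℝ) (2 * π)).indicator (fun _ => (1 : ℝ)) t)
      * (∫ t, (Icc (-π) π).indicator k t) * (∫ t, (Ico (0 : ℝ) 1).indicator (fun t => t ^ 2) t) = _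
    rw [integral_indicator measurableSet_Icc, integral_indicator measurableSet_Icc,
      integral_indicator measurableSet_Ico, integral_Icc_eq_integral_Ioc,
      integral_Icc_eq_integral_Ioc, integral_Ico_eq_integral_Ioc,
      ← intervalIntegral.integral_of_le (by positivity),
      ← intervalIntegral.integral_of_le (by linarith [Real.pi_pos]),
      ← intervalIntegral.integral_of_le (by norm_num)]
    simp
    left
    norm_num
  · exact MeasureTheory.Integrable.fintype_prod_dep hφint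
  · exact Filter.Eventually.of_forall fun y => Finset.prod_nonneg fun i _ => hφ0 i _

namespace Surf

variable {f : ℝ × ℝ → E3} {a a1 a2 : ℝ → ℝ} {r : ℝ} (S : Surf f a a1 a2 r)

include S

/-- **The total positive curvature inequality** for doubly periodic surfaces with first
fundamental form `a(v)² du² + r² dv²`: `∫ K⁺ dA = (2π/r) ∫ (a'')⁻ dv ≥ 4π`. -/
theorem total_curvature (ha2 : Continuous a2)
    (h1 : ∀ u v, f (u + 2 * π, v) = f (u, v)) (h2 : ∀ u v, f (u, v + 2 * π) = f (u, v)) :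
    2 * r ≤ ∫ v in (-π)..π, max (-a2 v) 0 := by
  have hr := S.rpos
  set k : ℝ → ℝ := fun v => max (-a2 v) 0 / r with hk
  have hkc : Continuous k := (ha2.neg.max continuous_const).div_const r
  have hk0 : ∀ v, 0 ≤ k v := fun v => by
    have : 0 ≤ max (-a2 v) 0 := le_max_right _ _
    positivity
  set g : E3 → ℝ≥0∞ := fun x => ENNReal.ofReal ((x 2) ^ 2 * (|a2 (x 1)| / r)) with hg
  set B : Set E3 := {x : E3 | pr x ∈ Dom ∧ 0 ≤ x 2 ∧ x 2 < 1} with hB
  have hmB : MeasurableSet B := by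
    have h2 : MeasurableSet (pr ⁻¹' Dom) :=
      ((isClosed_Icc.prod isClosed_Icc).preimage pr.continuous).measurableSet
    have h3 : Measurable fun x : E3 => x 2 :=
      (EuclideanSpace.proj (2 : Fin 3) : E3 →L[ℝ] ℝ).continuous.measurable
    exact h2.inter ((measurableSet_le measurable_const h3).inter
      (measurableSet_lt h3 measurable_const))
  have hgm : Measurable g := by
    have h3 : Continuous fun x : E3 => x 2 :=
      (EuclideanSpace.proj (2 : Fin 3) : E3 →L[ℝ] ℝ).continuous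
    have h4 : Continuous fun x : E3 => x 1 :=
      (EuclideanSpace.proj (1 : Fin 3) : E3 →L[ℝ] ℝ).continuous
    exact ENNReal.measurable_ofReal.comp
      (((h3.pow 2).mul ((ha2.comp h4).abs.div_const r)).measurable)
  have step1 : volume (Metric.ball (0 : E3) 1)
      ≤ (∫⁻ x in Solid f a r 1, g x) + ∫⁻ x in Solid f a r (-1), g x :=
    calc volume (Metric.ball (0 : E3) 1)
        ≤ volume (cone f a r 1 '' Solid f a r 1 ∪ cone f a r (-1) '' Solid f a r (-1)) :=
          measure_mono (S.cover h1 h2)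
      _ ≤ volume (cone f a r 1 '' Solid f a r 1)
          + volume (cone f a r (-1) '' Solid f a r (-1)) := measure_union_le _ _
      _ ≤ _ := add_le_add (S.image_le 1 (Or.inl rfl)) (S.image_le (-1) (Or.inr rfl))
  have step2 : (∫⁻ x in Solid f a r 1, g x) + ∫⁻ x in Solid f a r (-1), g x
      ≤ ∫⁻ x in B, ENNReal.ofReal ((x 2) ^ 2 * k (x 1)) := by
    rw [← lintegral_indicator (S.measurable_solid 1),
      ← lintegral_indicator (S.measurable_solid (-1)), ← lintegral_indicator hmB,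
      ← lintegral_add_left (hgm.indicator (S.measurable_solid 1))]
    refine lintegral_mono fun x => ?_
    by_cases hx1 : x ∈ Solid f a r 1
    · have hxB : x ∈ B := ⟨hx1.1.1, hx1.2⟩
      have hn : a2 (x 1) ≤ 0 := S.a2_nonpos (Or.inl rfl) hx1.1.2
      by_cases hx2 : x ∈ Solid f a r (-1)
      · have h0 : a2 (x 1) = 0 := S.a2_zero hx1.1.2 hx2.1.2
        simp [indicator_of_mem hx1, indicator_of_mem hx2, hg, h0]
      · simp only [indicator_of_mem hx1, indicator_of_notMem hx2, indicator_of_mem hxB, hg, hk,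
          add_zero]
        rw [abs_of_nonpos hn, max_eq_left (by linarith)]
    · by_cases hx2 : x ∈ Solid f a r (-1)
      · have hxB : x ∈ B := ⟨hx2.1.1, hx2.2⟩
        have hn : a2 (x 1) ≤ 0 := S.a2_nonpos (Or.inr rfl) hx2.1.2
        simp only [indicator_of_notMem hx1, indicator_of_mem hx2, indicator_of_mem hxB, hg, hk,
          zero_add]
        rw [abs_of_nonpos hn, max_eq_left (by linarith)]
      · simp [indicator_of_notMem hx1, indicator_of_notMem hx2]
  have step3 := step1.trans (step2.trans (lintegral_box hkc hk0).le)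
  rw [EuclideanSpace.volume_ball_fin_three] at step3
  have hI : 0 ≤ ∫ v in (-π)..π, k v :=
    intervalIntegral.integral_nonneg (by linarith [Real.pi_pos]) fun v _ => hk0 v
  have hpi := Real.pi_pos
  have step4 : π * 4 / 3 ≤ 2 * π * (∫ v in (-π)..π, k v) * (1 / 3) := by
    have h5 : ENNReal.ofReal 1 ^ 3 * ENNReal.ofReal (π * 4 / 3) = ENNReal.ofReal (π * 4 / 3) := by
      simp
    rw [h5] at step3
    exact (ENNReal.ofReal_le_ofReal_iff (by positivity)).mp step3
  have hkI : ∫ v in (-π)..π, k v = (∫ v in (-π)..π, max (-a2 v) 0) / r := by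
    rw [← intervalIntegral.integral_div]
  rw [hkI] at step4
  have h6 : 2 ≤ (∫ v in (-π)..π, max (-a2 v) 0) / r := by
    by_contra hc
    push Not at hc
    have : 2 * π * ((∫ v in (-π)..π, max (-a2 v) 0) / r) * (1 / 3) < 2 * π * 2 * (1 / 3) := by
      have h7 : 2 * π * ((∫ v in (-π)..π, max (-a2 v) 0) / r) < 2 * π * 2 :=
        mul_lt_mul_of_pos_left hc (by positivity)
      linarith
    linarith
  rwa [le_div_iff₀ hr] at h6

end Surf

end Pool.Agent.Helper34.Torus
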