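import Mathlib

/-!
# A graph over a grid which meets every line neighbourhood in few points

The set `S i p q` below collects the grid points near the (rounded) line through `p` and `q`;
the union bound over all triples `(i, p, q)` gives a function `g` on the grid whose graph has at most
`k + c` points near any line.
-/

open Finset

namespace Pool.Agent.Helper34.Tube

/-- The union bound: if all sets `S t` of pairs are small, then some function has few points of its
graph in each of them. -/
theorem exists_graph {X Y τ : Type*} [Fintype X] [DecidableEq X] [Fintype Y] [DecidableEq Y]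
    [Nonempty Y] [Fintype τ] (S : τ → Finset (X × Y)) (C lam : ℝ) (b : ℕ) (hlam : 1 ≤ lam)
    (hS : ∀ t, ((S t).card : ℝ) ≤ C * Fintype.card Y)
    (hb : (Fintype.card τ : ℝ) * Real.exp ((lam - 1) * C) < lam ^ (b + 1)) :
    ∃ g : X → Y, ∀ t, (univ.filter fun x => (x, g x) ∈ S t).card ≤ b := by
  classical
  by_contra hcon
  push Not at hcon
  have hY : (0 : ℝ) < Fintype.card Y := by exact_mod_cast Fintype.card_pos
  set N : ℝ := (Fintype.card Y : ℝ) with hN
  -- lower bound for the double sum
  have h1 : ((Fintype.card (X → Y) : ℕ) : ℝ) * lam ^ (b + 1) ≤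
      ∑ g : X → Y, ∑ t, ∏ x, (if (x, g x) ∈ S t then lam else 1) := by
    rw [← nsmul_eq_mul, ← Finset.card_univ, ← Finset.sum_const]
    refine Finset.sum_le_sum fun g _ => ?_
    obtain ⟨t, ht⟩ := hcon g
    have h2 : ∏ x, (if (x, g x) ∈ S t then lam else 1) =
        lam ^ (univ.filter fun x => (x, g x) ∈ S t).card := by
      rw [Finset.prod_ite, Finset.prod_const_one, mul_one, Finset.prod_const]
    calc lam ^ (b + 1) ≤ lam ^ (univ.filter fun x => (x, g x) ∈ S t).card :=
          pow_le_pow_right₀ hlam ht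
      _ = ∏ x, (if (x, g x) ∈ S t then lam else 1) := h2.symm
      _ ≤ ∑ t, ∏ x, (if (x, g x) ∈ S t then lam else 1) := by
          refine Finset.single_le_sum (f := fun t => ∏ x, (if (x, g x) ∈ S t then lam else 1))
            (fun t _ => Finset.prod_nonneg fun x _ => ?_) (mem_univ t)
          split_ifs <;> linarith
  rw [Finset.sum_comm] at h1
  have h3 : ∀ t, ∑ g : X → Y, ∏ x, (if (x, g x) ∈ S t then lam else 1) ≤
      N ^ Fintype.card X * Real.exp ((lam - 1) * C) := by
    intro t
    have e1 : ∑ g : X → Y, ∏ x, (if (x, g x) ∈ S t then lam else 1) =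
        ∏ x, ∑ y, (if (x, y) ∈ S t then lam else 1) := by
      rw [Finset.prod_univ_sum]
      simp
    rw [e1]
    have e2 : ∀ x, ∑ y, (if (x, y) ∈ S t then lam else 1) =
        N + (lam - 1) * (univ.filter fun y => (x, y) ∈ S t).card := by
      intro x
      have : ∀ y, (if (x, y) ∈ S t then lam else 1) = 1 + (lam - 1) * (if (x, y) ∈ S t then 1 else 0) := by
        intro y; split_ifs <;> ring
      rw [Finset.sum_congr rfl fun y _ => this y, Finset.sum_add_distrib, ← Finset.mul_sum,
        Finset.sum_boole]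
      simp [hN]
    have e3 : ∀ x, ∑ y, (if (x, y) ∈ S t then lam else 1) ≤
        N * Real.exp ((lam - 1) * (univ.filter fun y => (x, y) ∈ S t).card / N) := by
      intro x
      rw [e2 x]
      have := Real.add_one_le_exp ((lam - 1) * (univ.filter fun y => (x, y) ∈ S t).card / N)
      have h5 : N * ((lam - 1) * (univ.filter fun y => (x, y) ∈ S t).card / N + 1) ≤
          N * Real.exp ((lam - 1) * (univ.filter fun y => (x, y) ∈ S t).card / N) :=
        mul_le_mul_of_nonneg_left this hY.le
      refine le_trans (le_of_eq ?_) h5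
      field_simp
      ring
    calc ∏ x, ∑ y, (if (x, y) ∈ S t then lam else 1)
        ≤ ∏ x, (N * Real.exp ((lam - 1) * (univ.filter fun y => (x, y) ∈ S t).card / N)) := by
          refine Finset.prod_le_prod (fun x _ => Finset.sum_nonneg fun y _ => ?_) fun x _ => e3 x
          split_ifs <;> linarith
      _ = N ^ Fintype.card X * Real.exp ((lam - 1) * ((S t).card : ℝ) / N) := by
          rw [Finset.prod_mul_distrib, Finset.prod_const, Finset.card_univ, ← Real.exp_sum]
          congr 2
          rw [← Finset.sum_div, ← Finset.mul_sum]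
          congr 2
          have : (S t).card = ∑ x, (univ.filter fun y => (x, y) ∈ S t).card := by
            rw [← Finset.card_sigma]
            refine Finset.card_bij (fun z _ => ⟨z.1, z.2⟩) ?_ ?_ ?_
            · rintro ⟨x, y⟩ h; simpa using h
            · rintro ⟨x, y⟩ _ ⟨x', y'⟩ _ h; simp at h; ext <;> simp [h]
            · rintro ⟨x, y⟩ h; exact ⟨(x, y), by simpa using h, rfl⟩
          rw [this]; push_cast; rfl
      _ ≤ N ^ Fintype.card X * Real.exp ((lam - 1) * C) := by
          refine mul_le_mul_of_nonneg_left (Real.exp_le_exp.2 ?_) (by positivity)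
          rw [div_le_iff₀ hY]
          have := mul_le_mul_of_nonneg_left (hS t) (by linarith : (0:ℝ) ≤ lam - 1)
          linarith
  have h4 : ((Fintype.card (X → Y) : ℕ) : ℝ) * lam ^ (b + 1) ≤
      Fintype.card τ * (N ^ Fintype.card X * Real.exp ((lam - 1) * C)) := by
    refine h1.trans ((Finset.sum_le_sum fun t _ => h3 t).trans (le_of_eq ?_))
    rw [Finset.sum_const, Finset.card_univ, nsmul_eq_mul]
  rw [Fintype.card_fun] at h4
  push_cast at h4
  have hpos : (0 : ℝ) < N ^ Fintype.card X := by positivity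
  have h5 : N ^ Fintype.card X * lam ^ (b + 1) ≤
      N ^ Fintype.card X * (Fintype.card τ * Real.exp ((lam - 1) * C)) := by linarith
  have h6 := le_of_mul_le_mul_left h5 hpos
  linarith

/-- The grid point with height `h` over the point `a` of the base grid. -/
def vec {n m : ℕ} (a : Fin n → Fin m) (h : Fin m) : Fin (n + 1) → ℤ :=
  Fin.cons (h : ℤ) fun i => (a i : ℤ)

/-- The rounded line through `p` and `q`, parametrised by the coordinate `i`. -/
def rnd {n : ℕ} (i : Fin (n + 1)) (p q : Fin (n + 1) → ℤ) (c : ℤ) (j : Fin (n + 1)) : ℤ :=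
  p j + ((c - p i) * (q j - p j)) / (q i - p i)

theorem vec_nonneg {n m : ℕ} (a : Fin n → Fin m) (h : Fin m) (i : Fin (n + 1)) :
    0 ≤ vec a h i := by
  refine Fin.cases ?_ (fun i => ?_) i <;> simp [vec]

theorem vec_lt {n m : ℕ} (a : Fin n → Fin m) (h : Fin m) (i : Fin (n + 1)) :
    vec a h i < m := by
  refine Fin.cases ?_ (fun i => ?_) i <;> simp [vec]

theorem vec_inj {n m : ℕ} {a a' : Fin n → Fin m} {h h' : Fin m} (e : vec a h = vec a' h') :
    a = a' ∧ h = h' := by
  constructor
  · funext i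
    have := congrFun e i.succ
    simp only [vec, Fin.cons_succ] at this
    exact Fin.ext (by exact_mod_cast this)
  · have := congrFun e 0
    simp only [vec, Fin.cons_zero] at this
    exact Fin.ext (by exact_mod_cast this)

/-- The rounding of lines: the points of a grid which are near a line are near a rounded line through
two of them. -/
theorem near_line {n m : ℕ} (F : Finset ((Fin n → Fin m) × Fin m)) (hF : F.Nonempty)
    (a u : Fin (n + 1) → ℝ) (hu : u ≠ 0)
    (hl : ∀ z ∈ F, ∃ t : ℝ, ∀ j, |(vec z.1 z.2 j : ℝ) - (a j + t * u j)| ≤ 2) :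
    ∃ (i : Fin (n + 1)) (p q : (Fin n → Fin m) × Fin m), ∀ z ∈ F, ∀ j,
      |vec z.1 z.2 j - rnd i (vec p.1 p.2) (vec q.1 q.2) (vec z.1 z.2 i) j| ≤ 9 := by
  -- a dominating coordinate
  obtain ⟨i, -, hi⟩ := Finset.exists_max_image (univ : Finset (Fin (n + 1))) (fun j => |u j|)
    ⟨0, mem_univ _⟩
  have hui : 0 < |u i| := by
    rcases (abs_nonneg (u i)).lt_or_eq with h | h
    · exact h
    · exfalso; apply hu; funext j
      have := hi j (mem_univ j)
      rw [← h] at this
      simpa using le_antisymm this (abs_nonneg _)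
  have hui0 : u i ≠ 0 := abs_pos.1 hui
  set L : ℝ → Fin (n + 1) → ℝ := fun c j => a j + (c - a i) * (u j / u i) with hL
  have hr : ∀ j, |u j / u i| ≤ 1 := fun j => by
    rw [abs_div, div_le_one hui]; exact hi j (mem_univ j)
  have hnear : ∀ z ∈ F, ∀ j, |(vec z.1 z.2 j : ℝ) - L (vec z.1 z.2 i) j| ≤ 4 := by
    intro z hz j
    obtain ⟨t, ht⟩ := hl z hz
    have h1 := ht j
    have h2 := ht i
    have h3 : (vec z.1 z.2 j : ℝ) - L (vec z.1 z.2 i) j =
        ((vec z.1 z.2 j : ℝ) - (a j + t * u j)) -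
          ((vec z.1 z.2 i : ℝ) - (a i + t * u i)) * (u j / u i) := by
      simp only [hL]; field_simp; ring
    rw [h3]
    calc _ ≤ |(vec z.1 z.2 j : ℝ) - (a j + t * u j)| +
          |((vec z.1 z.2 i : ℝ) - (a i + t * u i)) * (u j / u i)| := abs_sub _ _
      _ ≤ 2 + 2 * 1 := by
          refine add_le_add h1 ?_
          rw [abs_mul]
          exact mul_le_mul h2 (hr j) (abs_nonneg _) (by norm_num)
      _ = 4 := by norm_num
  obtain ⟨p, hp, hpm⟩ := Finset.exists_min_image F (fun z => vec z.1 z.2 i) hF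
  obtain ⟨q, hq, hqm⟩ := Finset.exists_max_image F (fun z => vec z.1 z.2 i) hF
  refine ⟨i, p, q, fun z hz j => ?_⟩
  have hz1 := hpm z hz
  have hz2 := hqm z hz
  set x := vec z.1 z.2 with hx
  set P := vec p.1 p.2 with hP
  set Q := vec q.1 q.2 with hQ
  have n1 := hnear z hz j
  have n2 := hnear p hp j
  have n3 := hnear q hq j
  rw [← hx] at n1
  rw [← hP] at n2
  rw [← hQ] at n3
  rcases (hz1.trans hz2).eq_or_lt with h | h
  · have h0 : Q i - P i = 0 := by omega
    have hxi : x i = P i := by omega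
    have e : rnd i P Q (x i) j = P j := by simp [rnd, h0]
    rw [e]
    rw [hxi] at n1
    have : |(x j : ℝ) - P j| ≤ 8 := by
      have h3 : (x j : ℝ) - P j = ((x j : ℝ) - L (P i) j) - ((P j : ℝ) - L (P i) j) := by ring
      rw [h3]
      exact (abs_sub _ _).trans (by linarith)
    have h4 : |x j - P j| ≤ 8 := by exact_mod_cast this
    omega
  · have hd : (0 : ℝ) < (Q i : ℝ) - P i := by
      have : (P i : ℝ) < Q i := by exact_mod_cast h
      linarith
    set y : ℝ := P j + ((x i : ℝ) - P i) * ((Q j : ℝ) - P j) / ((Q i : ℝ) - P i) with hy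
    set th : ℝ := ((x i : ℝ) - P i) / ((Q i : ℝ) - P i) with hth
    have hxP : (P i : ℝ) ≤ x i := by exact_mod_cast hz1
    have hth0 : 0 ≤ th := div_nonneg (by linarith) hd.le
    have hth1 : th ≤ 1 := by
      rw [hth, div_le_one hd]
      have : (x i : ℝ) ≤ Q i := by exact_mod_cast hz2
      linarith
    have hyL : y - L (x i) j = (1 - th) * ((P j : ℝ) - L (P i) j) + th * ((Q j : ℝ) - L (Q i) j) := by
      simp only [hy, hth, hL]
      field_simp
      ring
    have hy4 : |y - L (x i) j| ≤ 4 := by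
      rw [hyL]
      calc _ ≤ |(1 - th) * ((P j : ℝ) - L (P i) j)| + |th * ((Q j : ℝ) - L (Q i) j)| := abs_add_le _ _
        _ ≤ (1 - th) * 4 + th * 4 := by
            rw [abs_mul, abs_mul, abs_of_nonneg hth0, abs_of_nonneg (by linarith : 0 ≤ 1 - th)]
            exact add_le_add (mul_le_mul_of_nonneg_left n2 (by linarith))
              (mul_le_mul_of_nonneg_left n3 hth0)
        _ = 4 := by ring
    have hxy : |(x j : ℝ) - y| ≤ 8 := by
      have h3 : (x j : ℝ) - y = ((x j : ℝ) - L (x i) j) - (y - L (x i) j) := by ring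
      rw [h3]
      exact (abs_sub _ _).trans (by linarith)
    -- the rounding error
    set D : ℤ := Q i - P i with hD
    have hDpos : 0 < D := by omega
    set Nn : ℤ := (x i - P i) * (Q j - P j) with hNn
    have e1 : rnd i P Q (x i) j = P j + Nn / D := rfl
    have e2 : y = P j + (Nn : ℝ) / D := by
      simp only [hy, hNn, hD]; push_cast; ring
    have f1 : ((Nn / D : ℤ) : ℝ) ≤ (Nn : ℝ) / D := by
      rw [le_div_iff₀ (by exact_mod_cast hDpos)]
      exact_mod_cast Int.ediv_mul_le Nn hDpos.ne'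
    have f2 : (Nn : ℝ) / D < ((Nn / D : ℤ) : ℝ) + 1 := by
      rw [div_lt_iff₀ (by exact_mod_cast hDpos)]
      exact_mod_cast Int.lt_ediv_add_one_mul_self Nn hDpos
    have h5 : |(x j : ℝ) - (rnd i P Q (x i) j : ℤ)| ≤ 9 := by
      rw [e1]
      push_cast
      have h6 : (x j : ℝ) - ((P j : ℝ) + ((Nn / D : ℤ) : ℝ)) =
          ((x j : ℝ) - y) + ((Nn : ℝ) / D - ((Nn / D : ℤ) : ℝ)) := by rw [e2]; ring
      rw [h6]
      calc _ ≤ |(x j : ℝ) - y| + |(Nn : ℝ) / D - ((Nn / D : ℤ) : ℝ)| := abs_add_le _ _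
        _ ≤ 8 + 1 := by
            refine add_le_add hxy ?_
            rw [abs_le]; constructor <;> linarith
        _ = 9 := by norm_num
    exact_mod_cast h5

/-- The grid points near a rounded line. -/
def SS {n m : ℕ} (T : Fin (n + 1) × ((Fin n → Fin m) × Fin m) × ((Fin n → Fin m) × Fin m)) :
    Finset ((Fin n → Fin m) × Fin m) :=
  univ.filter fun z => ∀ j,
    |vec z.1 z.2 j - rnd T.1 (vec T.2.1.1 T.2.1.2) (vec T.2.2.1 T.2.2.2) (vec z.1 z.2 T.1) j| ≤ 9

theorem card_SS {n m : ℕ}
    (T : Fin (n + 1) × ((Fin n → Fin m) × Fin m) × ((Fin n → Fin m) × Fin m)) :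
    (SS T).card ≤ 19 ^ (n + 1) * m := by
  classical
  have key : (SS T).card ≤ (univ : Finset ((Fin (n + 1) → Fin 19) × Fin m)).card := by
    refine Finset.card_le_card_of_injOn
      (fun z => (fun j => ⟨((vec z.1 z.2 j - rnd T.1 (vec T.2.1.1 T.2.1.2) (vec T.2.2.1 T.2.2.2)
          (vec z.1 z.2 T.1) j + 9).toNat) % 19, Nat.mod_lt _ (by norm_num)⟩,
        ⟨(vec z.1 z.2 T.1).toNat, by
          have h1 := vec_lt z.1 z.2 T.1
          have h2 := vec_nonneg z.1 z.2 T.1
          omega⟩)) (fun _ _ => mem_univ _) ?_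
    intro z hz z' hz' e
    have hz := (Finset.mem_filter.1 hz).2
    have hz' := (Finset.mem_filter.1 hz').2
    simp only [Prod.mk.injEq, Fin.mk.injEq] at e
    obtain ⟨e1, e2⟩ := e
    have e3 : vec z.1 z.2 T.1 = vec z'.1 z'.2 T.1 := by
      have h2 := vec_nonneg z.1 z.2 T.1
      have h2' := vec_nonneg z'.1 z'.2 T.1
      omega
    have e4 : vec z.1 z.2 = vec z'.1 z'.2 := by
      funext j
      have h := congrFun e1 j
      simp only [Fin.mk.injEq] at h
      have a1 := hz j
      have a2 := hz' j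
      rw [← e3] at a2 h
      rw [abs_le] at a1 a2
      omega
    obtain ⟨h1, h2⟩ := vec_inj e4
    exact Prod.ext h1 h2
  refine key.trans (le_of_eq ?_)
  simp

/-- **The discrete lemma.** -/
theorem discrete (n : ℕ) : ∃ c : ℕ, 1 ≤ c ∧ ∀ k : ℕ,
    ∃ g : (Fin n → Fin (2 ^ (k + 1))) → Fin (2 ^ (k + 1)),
      ∀ (a u : Fin (n + 1) → ℝ), u ≠ 0 → ∀ F : Finset (Fin n → Fin (2 ^ (k + 1))),
        (∀ x ∈ F, ∃ t : ℝ, ∀ j, |(vec x (g x) j : ℝ) - (a j + t * u j)| ≤ 2) →
        F.card ≤ k + c := by
  classical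
  set lam : ℝ := 2 ^ (2 * n + 2) with hlam
  set C : ℝ := 19 ^ (n + 1) with hC
  have hlam1 : 1 ≤ lam := one_le_pow₀ (by norm_num)
  have hlam2 : 1 < lam := one_lt_pow₀ (by norm_num) (by omega)
  obtain ⟨c, hc⟩ := pow_unbounded_of_one_lt ((n + 1 : ℝ) * Real.exp ((lam - 1) * C)) hlam2
  refine ⟨c + 1, by omega, fun k => ?_⟩
  set m := 2 ^ (k + 1) with hm
  have : NeZero m := ⟨by positivity⟩
  obtain ⟨g, hg⟩ := exists_graph (X := Fin n → Fin m) (Y := Fin m) (SS (n := n) (m := m)) C lam
    (k + c + 1) hlam1 (by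
      intro t
      have := card_SS t
      rw [Fintype.card_fin, hC]
      exact_mod_cast this) (by
      have e1 : (Fintype.card (Fin (n + 1) × ((Fin n → Fin m) × Fin m) × ((Fin n → Fin m) × Fin m)) : ℝ)
          = (n + 1) * lam ^ (k + 1) := by
        simp only [Fintype.card_prod, Fintype.card_fin, Fintype.card_fun]
        push_cast
        rw [hlam, hm]
        push_cast
        rw [← pow_mul, ← pow_mul]
        ring
      rw [e1]
      have e2 : lam ^ (k + c + 1 + 1) = lam ^ (k + 1) * lam ^ c * lam := by ring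
      rw [e2]
      have hp : 0 < lam ^ (k + 1) := by positivity
      calc (n + 1 : ℝ) * lam ^ (k + 1) * Real.exp ((lam - 1) * C)
          = lam ^ (k + 1) * ((n + 1 : ℝ) * Real.exp ((lam - 1) * C)) := by ring
        _ < lam ^ (k + 1) * lam ^ c := by gcongr
        _ ≤ lam ^ (k + 1) * lam ^ c * lam := by
            refine le_mul_of_one_le_right (by positivity) hlam1)
  refine ⟨g, fun a u hu F hF => ?_⟩
  rcases F.eq_empty_or_nonempty with rfl | hne
  · simp
  obtain ⟨i, p, q, hpq⟩ := near_line (F.image fun x => (x, g x)) (hne.image _) a u hu (by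
    intro z hz
    obtain ⟨x, hx, rfl⟩ := Finset.mem_image.1 hz
    exact hF x hx)
  refine (Finset.card_le_card ?_).trans ((hg (i, p, q)).trans (by omega))
  intro x hx
  rw [Finset.mem_filter]
  refine ⟨mem_univ _, ?_⟩
  unfold SS
  rw [Finset.mem_filter]
  exact ⟨mem_univ _, fun j => hpq _ (Finset.mem_image_of_mem _ hx) j⟩

end Pool.Agent.Helper34.Tube
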